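import Pool.Agent.N356.SP.DefsK

/-!
Project LK (helper356), part GK13a (helper426): an upper bound for `lam k`.
-/

set_option autoImplicit false

namespace Pool.Agent.N426.LK

open Pool.Agent.N356.SP (lam)

theorem cb_le {k : ℕ} (hk : 8 ≤ k) : 5 * k.centralBinom ≤ 4 ^ k := by
  induction k, hk using Nat.le_induction with
  | base => decide +kernel
  | succ k hk ih =>
    have h1 := Nat.succ_mul_centralBinom_succ k
    have h2 : (k + 1) * (5 * (k + 1).centralBinom) ≤ (k + 1) * 4 ^ (k + 1) := by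
      calc (k + 1) * (5 * (k + 1).centralBinom) = 5 * ((k + 1) * (k + 1).centralBinom) := by ring
        _ = 2 * (2 * k + 1) * (5 * k.centralBinom) := by rw [h1]; ring
        _ ≤ 2 * (2 * k + 1) * 4 ^ k := Nat.mul_le_mul_left _ ih
        _ ≤ (4 * (k + 1)) * 4 ^ k := Nat.mul_le_mul_right _ (by omega)
        _ = (k + 1) * 4 ^ (k + 1) := by ring
    exact Nat.le_of_mul_le_mul_left h2 (Nat.succ_pos k)

theorem exp_lt : Real.exp (7 / 8) < 5 / 2 := by
  have h1 : Real.exp (7 / 8) ^ 8 < (5 / 2 : ℝ) ^ 8 := by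
    rw [← Real.exp_nat_mul]
    have e : ((8 : ℕ) : ℝ) * (7 / 8) = ((7 : ℕ) : ℝ) * 1 := by norm_num
    rw [e, Real.exp_nat_mul]
    have h2 := Real.exp_one_lt_d9
    calc Real.exp 1 ^ 7 < (2.7182818286 : ℝ) ^ 7 :=
          pow_lt_pow_left₀ h2 (Real.exp_pos _).le (by norm_num)
      _ < (5 / 2 : ℝ) ^ 8 := by norm_num
  exact lt_of_pow_lt_pow_left₀ 8 (by norm_num) h1

theorem rhs_ge {m : ℕ} (hm : 7 ≤ m) :
    (2 : ℝ) ^ (m + 1) / 5 ≤ (2 - 7 / (4 * ((m : ℝ) + 1))) ^ m := by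
  have hm0 : (0 : ℝ) ≤ m := Nat.cast_nonneg m
  have hd : (0 : ℝ) < 8 * m + 1 := by positivity
  have h1 : (1 : ℝ) + 7 / (8 * m + 1) ≤ Real.exp (7 / (8 * m + 1)) := by
    have := Real.add_one_le_exp (7 / (8 * (m : ℝ) + 1))
    linarith
  have h2 : ((1 : ℝ) + 7 / (8 * m + 1)) ^ m ≤ Real.exp (7 / 8) := by
    calc ((1 : ℝ) + 7 / (8 * m + 1)) ^ m ≤ Real.exp (7 / (8 * m + 1)) ^ m :=
          pow_le_pow_left₀ (by positivity) h1 m
      _ = Real.exp (m * (7 / (8 * m + 1))) := by rw [← Real.exp_nat_mul]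
      _ ≤ Real.exp (7 / 8) := by
          refine Real.exp_le_exp.2 ?_
          rw [← mul_div_assoc, div_le_div_iff₀ hd (by norm_num)]
          linarith
  have h3 : (2 - 7 / (4 * ((m : ℝ) + 1))) * (1 + 7 / (8 * m + 1)) = 2 := by
    have : (m : ℝ) + 1 ≠ 0 := by positivity
    field_simp
    ring
  have h4 : (0 : ℝ) < 2 - 7 / (4 * ((m : ℝ) + 1)) := by
    have h5 : (0 : ℝ) < 1 + 7 / (8 * m + 1) := by positivity
    by_contra h
    have : (2 - 7 / (4 * ((m : ℝ) + 1))) * (1 + 7 / (8 * m + 1)) ≤ 0 :=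
      mul_nonpos_of_nonpos_of_nonneg (not_lt.1 h) h5.le
    linarith
  have h5 : (2 : ℝ) ^ m ≤ (2 - 7 / (4 * ((m : ℝ) + 1))) ^ m * (5 / 2) := by
    calc (2 : ℝ) ^ m = (2 - 7 / (4 * ((m : ℝ) + 1))) ^ m * (1 + 7 / (8 * m + 1)) ^ m := by
          rw [← mul_pow, h3]
      _ ≤ (2 - 7 / (4 * ((m : ℝ) + 1))) ^ m * (5 / 2) :=
          mul_le_mul_of_nonneg_left (h2.trans exp_lt.le) (pow_nonneg h4.le _)
  rw [pow_succ]
  linarith

/-- **LK/GK13a** -/
theorem lam_le {k : ℕ} (hk : 6 ≤ k) : lam k ≤ (2 - 7 / (4 * (k : ℝ))) ^ (k - 1) := by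
  rcases Nat.lt_or_ge k 8 with h | h
  · interval_cases k
    · have e : (2 * 6).choose 6 = 924 := by decide +kernel
      unfold lam
      rw [e]
      norm_num
    · have e : (2 * 7).choose 7 = 3432 := by decide +kernel
      unfold lam
      rw [e]
      norm_num
  · obtain ⟨m, rfl⟩ : ∃ m, k = m + 1 := ⟨k - 1, by omega⟩
    have h1 := rhs_ge (m := m) (by omega)
    have h2 := cb_le h
    have h3 : (5 : ℝ) * ((2 * (m + 1)).choose (m + 1) : ℝ) ≤ 4 ^ (m + 1) := by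
      rw [Nat.centralBinom] at h2
      exact_mod_cast h2
    have h4 : lam (m + 1) ≤ (2 : ℝ) ^ (m + 1) / 5 := by
      unfold lam
      rw [div_le_div_iff₀ (by positivity) (by norm_num)]
      have e : (2 : ℝ) ^ (m + 1) * 2 ^ (m + 1) = 4 ^ (m + 1) := by
        rw [← mul_pow]
        norm_num
      rw [e]
      linarith
    rw [Nat.add_sub_cancel]
    push_cast
    exact h4.trans h1

end Pool.Agent.N426.LK
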